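import Pool.Agent.H74.Rg4

namespace Pool.Agent.Results.MP_fb0e57_co.Girth
open SimpleGraph Pool.Agent.H74.Rg

theorem result (V : Type) [Finite V] (G : SimpleGraph V) (h : ¬ (Rec G).IsAcyclic) :
    ∃ (M : {M : Set V // MinDom G M}) (w : (Rec G).Walk M M), w.IsCycle ∧ w.length ≤ 5 := by
  by_cases hb : Bad G
  · exact main _ V G rfl hb
  · exact absurd (acyc hb) h

end Pool.Agent.Results.MP_fb0e57_co.Girth
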